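import Pool.Agent.Helper52.NF.St

set_option autoImplicit false

namespace Pool.Agent.Helper78.NF

open Pool.Agent.Helper52.NF Finset

/-- MODULE L2: a path with exactly one edge at its end `u`. -/
theorem hL2 (h : StL1) : StL2 := by
  classical
  intro ε N _ _ α β P u v hloop hP
  obtain ⟨huv, hbd⟩ := hP
  by_cases hA : ∃ e ∈ P, (α e = u ∧ β e = v) ∨ (α e = v ∧ β e = u)
  · obtain ⟨e, he, hends⟩ := hA
    refine ⟨{e}, Finset.singleton_subset_iff.2 he, ⟨huv, ?_⟩, e, Finset.mem_singleton_self e, ?_, ?_⟩
    · intro x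
      rw [bd_singleton]
      rcases hends with ⟨h1, h2⟩ | ⟨h1, h2⟩
      · rw [h1, h2]
      · rw [h1, h2, add_comm]
    · rcases hends with ⟨h1, h2⟩ | ⟨h1, h2⟩
      · exact Or.inl h1
      · exact Or.inr h2
    · intro e' he' _
      exact Finset.mem_singleton.1 he'
  · set Pu := P.filter (fun e => At α β u e) with hPu
    have hPuP : Pu ⊆ P := Finset.filter_subset _ _
    have hPuv : ∀ e ∈ Pu, ¬ At α β v e := by
      intro e he hv
      rw [hPu, Finset.mem_filter] at he
      apply hA
      refine ⟨e, he.1, ?_⟩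
      rcases he.2 with h1 | h1 <;> rcases hv with h2 | h2
      · exact absurd (h1.symm.trans h2) huv
      · exact Or.inl ⟨h1, h2⟩
      · exact Or.inr ⟨h2, h1⟩
      · exact absurd (h1.symm.trans h2) huv
    have hP'u : ∀ e ∈ P \ Pu, ¬ At α β u e := by
      intro e he hu
      rw [Finset.mem_sdiff] at he
      exact he.2 (Finset.mem_filter.2 ⟨he.1, hu⟩)
    have h1 : bd α β (P \ Pu) v = 1 := by
      rw [bd_sdiff α β hPuP, bd_of_notAt α β hPuv, hbd v, pt_self, pt_ne (Ne.symm huv)]
      decide
    obtain ⟨P1, hP1, w, hwv, hw1, hbd1⟩ := h ε N α β (P \ Pu) v h1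
    have hwu : w ≠ u := by
      rintro rfl
      rw [bd_of_notAt α β hP'u] at hw1
      exact zero_ne_one hw1
    have h2 : bd α β Pu w = 1 := by
      have h3 := bd_sdiff α β hPuP w
      rw [hw1, hbd w, pt_ne hwu, pt_ne hwv, add_zero, zero_add] at h3
      exact h3.symm
    obtain ⟨e, he, hends⟩ := exists_at α β (A := Pu) (x := w) (by
      rw [h2]
      exact one_ne_zero)
    have heP : e ∈ P := hPuP he
    have hAt : At α β u e := (Finset.mem_filter.1 he).2
    have hpt : ∀ x, pt (α e) x + pt (β e) x = pt w x + pt u x := by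
      intro x
      rcases hends with ⟨h3, h4⟩ | ⟨h3, h4⟩
      · have h5 : β e = u := by
          rcases hAt with h6 | h6
          · exact absurd (h3.symm.trans h6) hwu
          · exact h6
        rw [h3, h5]
      · have h5 : α e = u := by
          rcases hAt with h6 | h6
          · exact h6
          · exact absurd (h4.symm.trans h6) hwu
        rw [h4, h5, add_comm]
    have heP1 : e ∉ P1 := by
      intro h3
      exact hP'u e (hP1 h3) hAt
    refine ⟨insert e P1, ?_, ⟨huv, ?_⟩, e, Finset.mem_insert_self _ _, hAt, ?_⟩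
    · intro e' he'
      rcases Finset.mem_insert.1 he' with h3 | h3
      · rw [h3]
        exact heP
      · exact (Finset.mem_sdiff.1 (hP1 h3)).1
    · intro x
      rw [bd_insert α β heP1, hpt x, hbd1 x]
      have := zz (pt w x)
      linear_combination this
    · intro e' he' hat
      rcases Finset.mem_insert.1 he' with h3 | h3
      · exact h3
      · exact absurd hat (hP'u e' (hP1 h3))

end Pool.Agent.Helper78.NF
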